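import Pool.Agent.H.MP_18219f_mp.B

set_option autoImplicit false
open Matrix
open scoped ComplexOrder

namespace Pool.Agent.Results.MP_7519fb_mp.Cont

def sigma (n : ℕ) : Matrix (Fin 2 × Fin n) (Fin 2 × Fin n) ℝ :=
  blockDiagonal fun _ => !![0, 1; -1, 0]

def IsCov {n : ℕ} (γ : Matrix (Fin 2 × Fin n) (Fin 2 × Fin n) ℝ) : Prop :=
  γ.IsSymm ∧ (γ.map ((↑) : ℝ → ℂ) - Complex.I • (sigma n).map ((↑) : ℝ → ℂ)).PosSemidef

def costs {n : ℕ} (γ : Matrix (Fin 2 × Fin n) (Fin 2 × Fin n) ℝ) : Set ℝ :=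
  {x | ∃ S : Matrix (Fin 2 × Fin n) (Fin 2 × Fin n) ℝ, Sᵀ * sigma n * S = sigma n ∧
    (γ - Sᵀ * S).PosSemidef ∧
    x = ∑ i ∈ Finset.range n, Real.log ((toEuclideanLin S).singularValues i)}

open Pool.Agent.H.MP_18219f_mp in
theorem result (n : ℕ) : ∃ G : Matrix (Fin 2 × Fin n) (Fin 2 × Fin n) ℝ → ℝ,
    (∀ γ, IsCov γ → IsGLB (costs γ) (G γ)) ∧ ContinuousOn G {γ | IsCov γ} :=
  ⟨_, fun γ h => by
    rw [show costs γ = _ from vals_σ (Cov.psd h (σ_tr n))]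
    exact isGLB_csInf (V_ne h (σ_orth n) (σ_tr n)) (V_bdd (σ_orth n) (Cov.psd h (σ_tr n))),
    G_cont (σ_orth n) (σ_tr n)⟩

end Pool.Agent.Results.MP_7519fb_mp.Cont
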